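import Pool.Agent.H301_RC.Alg3

/-!
# RC-positivity of one even exterior power of the tangent bundle (Q1)

Let `X` be a compact complex manifold such that `Λ^p T_X` has an RC-positive metric for one even
`p ≥ 2`. Then every homomorphism from a pseudo-effective line bundle to the bundle `Ω^{jp}` of
holomorphic forms vanishes, `j ≥ 1`. In particular the canonical bundle is not pseudo-effective if
`p` divides the dimension. If `X` is projective and satisfies (V), but is not rationally connected,
then so is its power `X^p`, which maps to `Z^p`, where `Z` is the base of the rational quotient of
`X`, with `K_Z` pseudo-effective; this gives a homomorphism as above for `X^p`. Hence the case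
of one even `p` of Q1, for all `X`, is equivalent to the conjecture of Mumford.

Proof. The contraction `P(s, w)` of an alternating form `s` of degree `jp` with the `j`-th power of
`w ∈ Λ^p E` is a `GL(E)` invariant polynomial. (1) At a maximum of the upper semicontinuous function
`|P(σ, w)|² exp(2φ) / g(w, w)^j` on the bundle of the nonzero `w`, a direction `v` of positive
curvature at `w` and the section `w - ζ θ` contradict the mean value property of `φ` (`Psef1`,
`Psef2`, `Psef3`); hence `P(σ, w) = 0` for all `w`. (2) As `p` is even, the powers of the `w` span
`Λ^{jp} E`, by polarisation (`Alg1`, `Alg3`).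
-/

set_option autoImplicit false

open scoped Manifold ContDiff

namespace Pool.Agent.Results.MP_f057aa_ag.OneExteriorPower

open Pool.Agent.H301_RC

/-- Let `X` be a compact complex manifold, modelled on the finite dimensional complex normed space
`E`, and let `p` be even. If the `p`-th exterior power of the tangent bundle of `X` has an
RC-positive smooth Hermitian metric `g`, then every homomorphism from a pseudo-effective line bundle
on `X` to the `jp`-th exterior power of the cotangent bundle, `j ≥ 1`, is zero. (A form of degree
`jp` is a multilinear form in `jp` tangent vectors which vanishes if two of them are equal.) -/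
theorem result {E : Type*} [NormedAddCommGroup E] [NormedSpace ℂ E] [FiniteDimensional ℂ E]
    {X : Type*} [TopologicalSpace X] [CompactSpace X] [ChartedSpace E X] [IsManifold 𝓘(ℂ, E) ω X]
    {p j : ℕ} (hp : Even p) (hj : j ≠ 0) (g : HermitianMetric (exteriorRep E p) X)
    (hg : g.RCPositive) (T : PsefTensor E X (j * p))
    (alt : ∀ x, ∀ z ∈ T.U x, ∀ (a : Fin (j * p) → E) (i i' : Fin (j * p)),
      a i = a i' → i ≠ i' → T.σ x z a = 0) (x : X) (z : E) (hz : z ∈ T.U x) :
    T.σ x z = 0 :=
  RP_ne hp (alt x z hz) fun w =>
    vanish (exteriorRep_rep p) g hg T (RP_poly (Module.finBasis ℂ _)) one_ne_zero hj x z hz w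

end Pool.Agent.Results.MP_f057aa_ag.OneExteriorPower
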