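import Pool.Agent.H301_RC.Alg2

/-!
# RC-positivity of one even tensor power of the tangent bundle (Q2)

Let `X` be a compact complex manifold such that `T_X^{⊗p}` has an RC-positive metric for one even
`p ≥ 2`, for example `T_X ⊗ T_X`. Then every homomorphism from a pseudo-effective line bundle to a
covariant tensor bundle `(T_X^*)^{⊗m}`, `m ≥ 1`, vanishes. For projective `X` this is the criterion
of Campana, Demailly and Peternell for `X` to be rationally connected.

Proof. For a covariant tensor `s` of degree `m` and `w ∈ E^{⊗p}` there are polynomials `P(s, w)`,
of degree `p` in `s` and `m` in `w`, invariant under `GL(E)`: contract `p` copies of `s`, with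
permuted arguments, with `m` copies of `w` (`Alg2`). (1) At a maximum of the upper semicontinuous
function `|P(σ, w)|² exp(2pφ) / g(w, w)^m` on the bundle of the nonzero `w`, a direction `v` of
positive curvature at `w` and the section `w - ζ θ` contradict the mean value property of `φ`
(`Psef1`, `Psef2`, `Psef3`); hence `P(σ, w) = 0` for all `w`. (2) For even `p` only `s = 0` has
`P(s, w) = 0` for all these polynomials and all `w`: otherwise a two sided ideal `J ≠ 0` in the
functions on the symmetric group satisfies `Σ y₁ ⋯ y_p = 0` for all `y_i ∈ J`, but `J` contains a
nonzero real function, as every permutation is conjugate to its inverse (`Alg1`, `Alg2`).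
-/

set_option autoImplicit false

open scoped Manifold ContDiff

namespace Pool.Agent.Results.MP_f057aa_ag.OneTensorPower

open Pool.Agent.H301_RC

/-- Let `X` be a compact complex manifold, modelled on the finite dimensional complex normed space
`E`, and `p ≥ 2` even. If the `p`-th tensor power of the tangent bundle of `X` has an RC-positive
smooth Hermitian metric `g`, then every homomorphism from a pseudo-effective line bundle on `X` to
the `m`-th tensor power of the cotangent bundle, `m ≥ 1`, is zero. -/
theorem result {E : Type*} [NormedAddCommGroup E] [NormedSpace ℂ E] [FiniteDimensional ℂ E]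
    {X : Type*} [TopologicalSpace X] [CompactSpace X] [ChartedSpace E X] [IsManifold 𝓘(ℂ, E) ω X]
    {p m : ℕ} (hp : Even p) (hp0 : p ≠ 0) (hm : m ≠ 0) (g : HermitianMetric (tensorRep E p) X)
    (hg : g.RCPositive) (T : PsefTensor E X m) (x : X) (z : E) (hz : z ∈ T.U x) :
    T.σ x z = 0 :=
  PP_ne hp hp0 fun π w => vanish (tensorRep_rep p) g hg T (PP_poly π) hp0 hm x z hz w

end Pool.Agent.Results.MP_f057aa_ag.OneTensorPower
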