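import Pool.Agent.H301_RC.PC

/-!
# Uniformly RC-positive metrics on the exterior powers of the tangent bundle (Q1)

Let `X` be a compact connected complex manifold, `h` a smooth Hermitian metric on `T_X` and `C` a
closed complex curve in `X` along which `h` has positive curvature in the tangent directions of `C`;
on a projective `X` this is the same as a smooth curve `C` with an ample `T_X|_C`, for example an
embedded very free rational curve. Then there are tangent vectors `v(x)` such that every exterior
power of `T_X` has a smooth Hermitian metric with `R(v(x), v̄(x), a, ā) > 0` for all points `x` and
all nonzero `p`-vectors `a` at `x`. Every rationally connected projective manifold contains such a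
curve (Kollár), so this is Q1 for all rationally connected `X`, with a uniform direction.

The proof is described in `UniformTensorPowers`; the exterior power is a subbundle of the tensor
power, preserved by the connection.
-/

set_option autoImplicit false

open scoped Manifold ContDiff

namespace Pool.Agent.Results.MP_f057aa_ag.UniformExteriorPowers

open Pool.Agent.H301_RC

/-- Let `X` be a compact connected complex manifold of dimension `n`, modelled on the
`n`-dimensional complex inner product space `E`, `h` a smooth Hermitian metric on its tangent bundle
and `C` a closed complex curve in `X` along which the curvature of `h` in the tangent directions of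
`C` is positive. Then there are tangent vectors `v(x)`, `x ∈ X`, such that for every `p ≥ 1` the
`p`-th exterior power of the tangent bundle has a smooth Hermitian metric `g` with
`R(v(x), v̄(x), a, ā) > 0` for all points `x` and all nonzero `a` in the fibre at `x`. -/
theorem result {E : Type*} [NormedAddCommGroup E] [InnerProductSpace ℂ E] [FiniteDimensional ℂ E]
    (X : Type*) [TopologicalSpace X] [T2Space X] [CompactSpace X] [ConnectedSpace X]
    [ChartedSpace E X] [IsManifold 𝓘(ℂ, E) ω X] (h : HermitianMetric (idRep E) X) (C : Set X)
    (hC : PositiveCurve h C) :
    ∃ v : X → E, ∀ p : ℕ, 1 ≤ p →
      ∃ g : HermitianMetric (exteriorRep E p) X, ∀ x, g.PositiveAt x (v x) := by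
  obtain ⟨v, hv⟩ := exists_induced hC
  exact ⟨v, fun p hp => (hv p hp).2⟩

end Pool.Agent.Results.MP_f057aa_ag.UniformExteriorPowers
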