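import Pool.Agent.H301_RC.PC

/-!
# Uniformly RC-positive metrics on the tensor powers of the tangent bundle (Q2)

Let `X` be a compact connected complex manifold, `h` a smooth Hermitian metric on `T_X` and `C` a
closed complex curve in `X` along which `h` has positive curvature in the tangent directions of `C`;
on a projective `X` this is the same as a smooth curve `C` with an ample `T_X|_C`, for example an
embedded very free rational curve. Then there are tangent vectors `v(x)` such that every tensor
power of `T_X` has a smooth Hermitian metric with `R(v(x), v̄(x), a, ā) > 0` for all points `x` and
all nonzero tensors `a` at `x`. Every rationally connected projective manifold contains such a curve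
(Kollár), so this is Q2 for all rationally connected `X`, with a uniform direction.

Proof. (1) The normal bundle `N` of `C` is a quotient of `T_X|_C`, so it is positive, and the
squared length `ρ` of `N` on a tube around `C` has a negative Levi form in nearly tangential
directions (`Quot`, `Tube`, `Near1`, `Near2`). (2) There is a sum `L` of Levi forms in finitely many
directions which is elliptic and has `L ρ < 0` on an annulus around `C`, and a function `f` with
`L f > 0` outside of the tube (`Oper`, `GW`). (3) A function `F`, equal to a function of `ρ` near
`C`, has `L F > 0` outside of a small tube and a nonnegative Levi form in nearly tangential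
directions inside (`Final`). (4) For large `k` the metric `e^{-kF} h` has positive curvature in some
direction `v(x)` at every point. (5) The induced metrics on the tensor powers have positive
curvature in the same directions (`TP1`, `TP2`, `TP3`).
-/

set_option autoImplicit false

open scoped Manifold ContDiff

namespace Pool.Agent.Results.MP_f057aa_ag.UniformTensorPowers

open Pool.Agent.H301_RC

/-- Let `X` be a compact connected complex manifold of dimension `n`, modelled on the
`n`-dimensional complex inner product space `E`, `h` a smooth Hermitian metric on its tangent bundle
and `C` a closed complex curve in `X` along which the curvature of `h` in the tangent directions of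
`C` is positive. Then there are tangent vectors `v(x)`, `x ∈ X`, such that for every `p ≥ 1` the
`p`-th tensor power of the tangent bundle has a smooth Hermitian metric `g` with
`R(v(x), v̄(x), a, ā) > 0` for all points `x` and all nonzero `a` in the fibre at `x`. -/
theorem result {E : Type*} [NormedAddCommGroup E] [InnerProductSpace ℂ E] [FiniteDimensional ℂ E]
    (X : Type*) [TopologicalSpace X] [T2Space X] [CompactSpace X] [ConnectedSpace X]
    [ChartedSpace E X] [IsManifold 𝓘(ℂ, E) ω X] (h : HermitianMetric (idRep E) X) (C : Set X)
    (hC : PositiveCurve h C) :
    ∃ v : X → E, ∀ p : ℕ, 1 ≤ p →
      ∃ g : HermitianMetric (tensorRep E p) X, ∀ x, g.PositiveAt x (v x) := by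
  obtain ⟨v, hv⟩ := exists_induced hC
  exact ⟨v, fun p hp => (hv p hp).1⟩

end Pool.Agent.Results.MP_f057aa_ag.UniformTensorPowers
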